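import Mathlib

set_option autoImplicit false

namespace Pool.Agent.Results.MP_a2a8ea_mp.ExpLowerBound

open Finset

/-- A PEPS tensor with physical dimension d and bond dimension D; the entry A s l r u w carries
the physical index s and the left, right, up and down virtual indices l, r, u, w. -/
abbrev Tensor (d D : ℕ) := Fin d → Fin D → Fin D → Fin D → Fin D → ℂ

/-- Basis states of the 4n open virtual indices of an n x n square: left, right, up, down. -/
abbrev Bdry (n D : ℕ) :=
  (Fin n → Fin D) × (Fin n → Fin D) × (Fin n → Fin D) × (Fin n → Fin D)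

/-- The region map of the n x n square: all virtual indices on the inner edges are contracted.
Row i carries the horizontal edges h i 0, ..., h i n, column j the vertical edges v 0 j, ..., v n j. -/
noncomputable def regionMap {d D : ℕ} (A : Tensor d D) (n : ℕ) :
    (Bdry n D → ℂ) →ₗ[ℂ] ((Fin n → Fin n → Fin d) → ℂ) where
  toFun b := fun s => ∑ h : Fin n → Fin (n + 1) → Fin D, ∑ v : Fin (n + 1) → Fin n → Fin D,
    b (fun i => h i 0, fun i => h i (Fin.last n), fun j => v 0 j, fun j => v (Fin.last n) j) *
      ∏ i, ∏ j, A (s i j) (h i j.castSucc) (h i j.succ) (v i.castSucc j) (v i.succ j)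
  map_add' b c := by
    funext s
    simp only [Pi.add_apply, add_mul, Finset.sum_add_distrib]
  map_smul' t b := by
    funext s
    simp only [Pi.smul_apply, smul_eq_mul, RingHom.id_apply, Finset.mul_sum, mul_assoc]

/-- A is normal: some n x n square (n at least 1) is injective. -/
def IsNormal {d D : ℕ} (A : Tensor d D) : Prop :=
  ∃ n : ℕ, 1 ≤ n ∧ Function.Injective (regionMap A n)

/-- The injectivity index: the least n at least 1 such that the n x n square is injective. -/
noncomputable def injIndex {d D : ℕ} (A : Tensor d D) : ℕ :=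
  sInf {n : ℕ | 1 ≤ n ∧ Function.Injective (regionMap A n)}

/-! ### The combinatorial core -/

/-- The allowed moves x to y under the letter a. -/
def allowed (D a x y : ℕ) : Prop :=
  if a + 1 = D then (x = 0 ∨ y = 0 ∨ x + y = D)
  else (x = a + 1 ∨ y = a + 1 ∨ (x < a ∧ x + y + 1 = a) ∨ (a + 1 < x ∧ y = x))

instance (D a x y : ℕ) : Decidable (allowed D a x y) := by
  unfold allowed; infer_instance

/-- One step of the set dynamics. -/
def stp {D : ℕ} (S : Finset (Fin D)) (a : Fin D) : Finset (Fin D) :=
  univ.filter (fun y => ∃ x ∈ S, allowed D a x y)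

lemma mem_stp {D : ℕ} (S : Finset (Fin D)) (a y : Fin D) :
    y ∈ stp S a ↔ ∃ x ∈ S, allowed D a x y := by
  simp [stp]

/-- Ordering measure: first the size, then the binary value. -/
def mu {D : ℕ} (S : Finset (Fin D)) : ℕ := S.card * 2 ^ D + ∑ x ∈ S, 2 ^ (x : ℕ)

lemma binval_lt {D : ℕ} (S : Finset (Fin D)) : ∑ x ∈ S, 2 ^ (x : ℕ) < 2 ^ D := by
  have h1 : ∑ x ∈ S, 2 ^ (x : ℕ) ≤ ∑ x : Fin D, 2 ^ (x : ℕ) :=
    Finset.sum_le_sum_of_subset (Finset.subset_univ S)
  have h2 : ∑ x : Fin D, 2 ^ (x : ℕ) = ∑ i ∈ Finset.range D, 2 ^ i :=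
    Fin.sum_univ_eq_sum_range (fun i => 2 ^ i) D
  have h3 : ∑ i ∈ Finset.range D, 2 ^ i < 2 ^ D := by
    have := Nat.geomSum_lt (m := 2) (n := D) (s := Finset.range D) (le_refl 2)
      (fun k hk => Finset.mem_range.mp hk)
    exact this
  omega

lemma mu_lt_of_card {D : ℕ} {S T : Finset (Fin D)} (h : S.card + 1 ≤ T.card) : mu S < mu T := by
  unfold mu
  have h1 := binval_lt S
  have h2 : (S.card + 1) * 2 ^ D ≤ T.card * 2 ^ D := Nat.mul_le_mul_right _ h
  have h3 : (S.card + 1) * 2 ^ D = S.card * 2 ^ D + 2 ^ D := by ring
  omega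

lemma card_lt_univ {D : ℕ} {S : Finset (Fin D)} (h : S ≠ univ) :
    S.card + 1 ≤ (univ : Finset (Fin D)).card := by
  have : S ⊂ univ := Finset.ssubset_univ_iff.mpr h
  exact Finset.card_lt_card this

lemma stp_univ_of_full {D : ℕ} (S : Finset (Fin D)) (a x : Fin D) (hx : x ∈ S)
    (h : ∀ y : Fin D, allowed D a x y) : stp S a = univ := by
  ext y
  simp only [mem_stp, Finset.mem_univ, iff_true]
  exact ⟨x, hx, h y⟩

lemma stp_univ {D : ℕ} (hD : 2 ≤ D) (a : Fin D) : stp (univ : Finset (Fin D)) a = univ := by
  by_cases ha : (a : ℕ) + 1 = D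
  · refine stp_univ_of_full _ a ⟨0, by omega⟩ (Finset.mem_univ _) (fun y => ?_)
    unfold allowed; rw [if_pos ha]; left; rfl
  · have : (a : ℕ) + 1 < D := by have := a.2; omega
    refine stp_univ_of_full _ a ⟨a + 1, this⟩ (Finset.mem_univ _) (fun y => ?_)
    unfold allowed; rw [if_neg ha]; left; rfl

lemma stp_nonempty {D : ℕ} (hD : 2 ≤ D) {S : Finset (Fin D)} (hS : S.Nonempty) (a : Fin D) :
    (stp S a).Nonempty := by
  obtain ⟨x, hx⟩ := hS
  by_cases ha : (a : ℕ) + 1 = D
  · refine ⟨⟨0, by omega⟩, (mem_stp _ _ _).mpr ⟨x, hx, ?_⟩⟩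
    unfold allowed; rw [if_pos ha]; right; left; rfl
  · have : (a : ℕ) + 1 < D := by have := a.2; omega
    refine ⟨⟨a + 1, this⟩, (mem_stp _ _ _).mpr ⟨x, hx, ?_⟩⟩
    unfold allowed; rw [if_neg ha]; right; left; rfl

/-- The measure strictly increases until the full set is reached. -/
lemma mu_stp {D : ℕ} (hD : 2 ≤ D) {S : Finset (Fin D)} (hS : S.Nonempty) (hS' : S ≠ univ)
    (a : Fin D) : mu S < mu (stp S a) := by
  obtain ⟨x0, hx0⟩ := hS
  by_cases ha : (a : ℕ) + 1 = D
  · -- last letter
    by_cases h0 : (⟨0, by omega⟩ : Fin D) ∈ S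
    · rw [stp_univ_of_full S a _ h0 (fun y => by unfold allowed; rw [if_pos ha]; left; rfl)]
      exact mu_lt_of_card (card_lt_univ hS')
    · apply mu_lt_of_card
      have hpos : ∀ x ∈ S, 0 < (x : ℕ) := by
        intro x hx
        rcases Nat.eq_zero_or_pos (x : ℕ) with h | h
        · exfalso; apply h0
          have : x = ⟨0, by omega⟩ := Fin.ext h
          rwa [this] at hx
        · exact h
      -- injection x ↦ D - x into the step set minus 0
      have hinj : S.card ≤ ((stp S a).erase ⟨0, by omega⟩).card := by
        apply Finset.card_le_card_of_injOn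
          (fun x : Fin D => if h : 0 < (x : ℕ) then (⟨D - x, by omega⟩ : Fin D) else x)
        · intro x hx
          have hx' := hpos x hx
          simp only [hx', dif_pos, Finset.coe_erase, Set.mem_sdiff, Finset.mem_coe,
            Set.mem_singleton_iff]
          refine ⟨(mem_stp _ _ _).mpr ⟨x, hx, ?_⟩, ?_⟩
          · unfold allowed; rw [if_pos ha]; right; right
            have := x.2
            show (x : ℕ) + (D - x) = D
            omega
          · intro h
            have := congrArg Fin.val h
            have hx2 := x.2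
            simp at this
            omega
        · intro x hx y hy hxy
          have hx' := hpos x hx
          have hy' := hpos y hy
          simp only [hx', hy', dif_pos] at hxy
          have := congrArg Fin.val hxy
          have hx2 := x.2
          have hy2 := y.2
          simp at this
          apply Fin.ext
          omega
      have hmem : (⟨0, by omega⟩ : Fin D) ∈ stp S a := by
        refine (mem_stp _ _ _).mpr ⟨x0, hx0, ?_⟩
        unfold allowed; rw [if_pos ha]; right; left; rfl
      have := Finset.card_erase_add_one hmem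
      omega
  · have ha' : (a : ℕ) + 1 < D := by have := a.2; omega
    by_cases h1 : (⟨a + 1, ha'⟩ : Fin D) ∈ S
    · rw [stp_univ_of_full S a _ h1 (fun y => by unfold allowed; rw [if_neg ha]; left; rfl)]
      exact mu_lt_of_card (card_lt_univ hS')
    · have hne : ∀ x ∈ S, (x : ℕ) ≠ a + 1 := by
        intro x hx h
        apply h1
        have : x = ⟨a + 1, ha'⟩ := Fin.ext h
        rwa [this] at hx
      have hmem : (⟨a + 1, ha'⟩ : Fin D) ∈ stp S a := by
        refine (mem_stp _ _ _).mpr ⟨x0, hx0, ?_⟩
        unfold allowed; rw [if_neg ha]; right; left; rfl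
      -- the injection
      let f : Fin D → Fin D := fun x =>
        if h : (x : ℕ) < a then ⟨a - 1 - x, by omega⟩
        else if (x : ℕ) = a then ⟨a + 1, ha'⟩ else x
      have hf1 : ∀ x : Fin D, (x : ℕ) < a → ((f x : Fin D) : ℕ) = a - 1 - x := by
        intro x hx
        show ((dite ((x : ℕ) < a) _ _ : Fin D) : ℕ) = _
        rw [dif_pos hx]
      have hf2 : ∀ x : Fin D, (x : ℕ) = a → ((f x : Fin D) : ℕ) = a + 1 := by
        intro x hx
        have e1 : ¬ (x : ℕ) < a := by omega
        show ((dite ((x : ℕ) < a) _ _ : Fin D) : ℕ) = _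
        rw [dif_neg e1, if_pos hx]
      have hf3 : ∀ x : Fin D, (a : ℕ) < x → f x = x := by
        intro x hx
        have e1 : ¬ (x : ℕ) < a := by omega
        have e2 : ¬ (x : ℕ) = a := by omega
        show (dite ((x : ℕ) < a) _ _ : Fin D) = _
        rw [dif_neg e1, if_neg e2]
      have hfinj : Set.InjOn f (S : Set (Fin D)) := by
        intro x hx y hy hxy
        have hx1 := hne x hx
        have hy1 := hne y hy
        have hv := congrArg Fin.val hxy
        apply Fin.ext
        rcases lt_trichotomy (x : ℕ) (a : ℕ) with h | h | h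
        · rw [hf1 x h] at hv
          rcases lt_trichotomy (y : ℕ) (a : ℕ) with h' | h' | h'
          · rw [hf1 y h'] at hv; omega
          · rw [hf2 y h'] at hv; omega
          · rw [hf3 y h'] at hv; omega
        · rw [hf2 x h] at hv
          rcases lt_trichotomy (y : ℕ) (a : ℕ) with h' | h' | h'
          · rw [hf1 y h'] at hv; omega
          · omega
          · rw [hf3 y h'] at hv; omega
        · rw [hf3 x h] at hv
          rcases lt_trichotomy (y : ℕ) (a : ℕ) with h' | h' | h'
          · rw [hf1 y h'] at hv; omega
          · rw [hf2 y h'] at hv; omega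
          · rw [hf3 y h'] at hv; omega
      have hfmem : ∀ x ∈ S, f x ∈ stp S a := by
        intro x hx
        refine (mem_stp _ _ _).mpr ⟨x, hx, ?_⟩
        unfold allowed; rw [if_neg ha]
        rcases lt_trichotomy (x : ℕ) (a : ℕ) with h | h | h
        · right; right; left
          rw [hf1 x h]; omega
        · right; left
          exact hf2 x h
        · right; right; right
          rw [hf3 x h]
          have := hne x hx
          omega
      by_cases h2 : a ∈ S
      · have hc : S.card ≤ (stp S a).card :=
          Finset.card_le_card_of_injOn f hfmem hfinj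
        have hval : ∑ x ∈ S, 2 ^ (x : ℕ) < ∑ x ∈ stp S a, 2 ^ (x : ℕ) := by
          have hsplit : ∑ x ∈ S, 2 ^ (x : ℕ)
              = ∑ x ∈ S.filter (fun x : Fin D => (x : ℕ) < a + 1), 2 ^ (x : ℕ)
                + ∑ x ∈ S.filter (fun x : Fin D => ¬ (x : ℕ) < a + 1), 2 ^ (x : ℕ) :=
            (Finset.sum_filter_add_sum_filter_not S _ _).symm
          have hlow : ∑ x ∈ S.filter (fun x : Fin D => (x : ℕ) < a + 1), 2 ^ (x : ℕ) < 2 ^ ((a : ℕ) + 1) := by
            have hmap : ∑ x ∈ S.filter (fun x : Fin D => (x : ℕ) < a + 1), 2 ^ (x : ℕ)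
                = ∑ i ∈ (S.filter (fun x : Fin D => (x : ℕ) < a + 1)).map Fin.valEmbedding, 2 ^ i := by
              rw [Finset.sum_map]; rfl
            rw [hmap]
            apply Nat.geomSum_lt (le_refl 2)
            intro k hk
            simp only [Finset.mem_map, Finset.mem_filter] at hk
            obtain ⟨z, ⟨_, hz⟩, rfl⟩ := hk
            exact hz
          have hsub : insert (⟨a + 1, ha'⟩ : Fin D) (S.filter (fun x : Fin D => ¬ (x : ℕ) < a + 1))
              ⊆ stp S a := by
            intro y hy
            rcases Finset.mem_insert.mp hy with h | h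
            · rw [h]; exact hmem
            · obtain ⟨hyS, hy2⟩ := Finset.mem_filter.mp h
              have hy3 := hne y hyS
              refine (mem_stp _ _ _).mpr ⟨y, hyS, ?_⟩
              unfold allowed; rw [if_neg ha]; right; right; right
              constructor
              · omega
              · rfl
          have hnot : (⟨a + 1, ha'⟩ : Fin D) ∉ S.filter (fun x : Fin D => ¬ (x : ℕ) < a + 1) := by
            intro h
            exact h1 (Finset.mem_filter.mp h).1
          have hge := Finset.sum_le_sum_of_subset (f := fun x : Fin D => 2 ^ (x : ℕ)) hsub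
          rw [Finset.sum_insert hnot] at hge
          have : (2 : ℕ) ^ (((⟨a + 1, ha'⟩ : Fin D) : Fin D) : ℕ) = 2 ^ ((a : ℕ) + 1) := rfl
          omega
        unfold mu
        have : S.card * 2 ^ D ≤ (stp S a).card * 2 ^ D := Nat.mul_le_mul_right _ hc
        omega
      · apply mu_lt_of_card
        have hinj : S.card ≤ ((stp S a).erase ⟨a + 1, ha'⟩).card := by
          apply Finset.card_le_card_of_injOn f _ hfinj
          intro x hx
          rw [Finset.mem_coe, Finset.mem_erase]
          refine ⟨?_, hfmem x hx⟩
          intro h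
          have hv := congrArg Fin.val h
          have hxne : (x : ℕ) ≠ a := by
            intro h'
            apply h2
            have : x = a := Fin.ext h'
            rwa [← this]
          have hx1 := hne x hx
          rcases lt_trichotomy (x : ℕ) (a : ℕ) with h' | h' | h'
          · rw [hf1 x h'] at hv
            simp at hv
            omega
          · exact hxne h'
          · rw [hf3 x h'] at hv
            exact hx1 hv
        have := Finset.card_erase_add_one hmem
        omega

/-! ### All words of length 2^D - 2 lead to the full set -/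

/-- Number of nonempty sets below S. -/
def rk {D : ℕ} (S : Finset (Fin D)) : ℕ :=
  (univ.filter (fun T : Finset (Fin D) => T.Nonempty ∧ mu T < mu S)).card

lemma rk_lt {D : ℕ} {S S' : Finset (Fin D)} (hS : S.Nonempty) (h : mu S < mu S') :
    rk S < rk S' := by
  unfold rk
  apply Finset.card_lt_card
  rw [Finset.ssubset_iff_of_subset]
  · refine ⟨S, ?_, ?_⟩
    · simp [hS, h]
    · simp
  · intro T hT
    simp only [Finset.mem_filter, Finset.mem_univ, true_and] at hT ⊢
    exact ⟨hT.1, hT.2.trans h⟩

lemma rk_le {D : ℕ} (hD : 2 ≤ D) {S : Finset (Fin D)} (hS : S.Nonempty) (hS' : S ≠ univ) :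
    rk S ≤ 2 ^ D - 3 := by
  unfold rk
  have hsub : univ.filter (fun T : Finset (Fin D) => T.Nonempty ∧ mu T < mu S)
      ⊆ (univ : Finset (Finset (Fin D))) \ {∅, S, univ} := by
    intro T hT
    simp only [Finset.mem_filter, Finset.mem_univ, true_and] at hT
    simp only [Finset.mem_sdiff, Finset.mem_univ, true_and, Finset.mem_insert,
      Finset.mem_singleton, not_or]
    refine ⟨hT.1.ne_empty, ?_, ?_⟩
    · intro h; rw [h] at hT; exact lt_irrefl _ hT.2
    · intro h
      rw [h] at hT
      have := mu_lt_of_card (card_lt_univ hS')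
      omega
  have hcard : ((univ : Finset (Finset (Fin D))) \ {∅, S, univ}).card = 2 ^ D - 3 := by
    rw [Finset.card_sdiff_of_subset (Finset.subset_univ _)]
    have h1 : (univ : Finset (Finset (Fin D))).card = 2 ^ D := by
      rw [Finset.card_univ, Fintype.card_finset, Fintype.card_fin]
    have hne1 : (∅ : Finset (Fin D)) ≠ S := fun h => hS.ne_empty h.symm
    have hne2 : (∅ : Finset (Fin D)) ≠ univ := by
      intro h
      have : (⟨0, by omega⟩ : Fin D) ∈ (∅ : Finset (Fin D)) := by rw [h]; exact Finset.mem_univ _
      simp at this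
    have h2 : ({∅, S, univ} : Finset (Finset (Fin D))).card = 3 := by
      rw [Finset.card_insert_of_notMem, Finset.card_insert_of_notMem, Finset.card_singleton]
      · simpa using hS'
      · simp only [Finset.mem_insert, Finset.mem_singleton, not_or]
        exact ⟨hne1, hne2⟩
    rw [h1, h2]
  calc _ ≤ _ := Finset.card_le_card hsub
    _ = _ := hcard

lemma foldl_nonempty {D : ℕ} (hD : 2 ≤ D) (w : List (Fin D)) :
    ∀ S : Finset (Fin D), S.Nonempty → (w.foldl stp S).Nonempty := by
  induction w with
  | nil => intro S hS; simpa using hS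
  | cons a w ih => intro S hS; exact ih _ (stp_nonempty hD hS a)

lemma foldl_univ {D : ℕ} (hD : 2 ≤ D) (w : List (Fin D)) :
    w.foldl stp (univ : Finset (Fin D)) = univ := by
  induction w with
  | nil => rfl
  | cons a w ih =>
    rw [List.foldl_cons, stp_univ hD]
    exact ih

lemma foldl_rk {D : ℕ} (hD : 2 ≤ D) (w : List (Fin D)) :
    ∀ S : Finset (Fin D), S.Nonempty →
      (w.foldl stp S = univ ∨ rk S + w.length ≤ rk (w.foldl stp S)) := by
  induction w with
  | nil => intro S _; right; simp
  | cons a w ih =>
    intro S hS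
    by_cases hS' : S = univ
    · left; rw [hS']; exact foldl_univ hD _
    · rw [List.foldl_cons]
      rcases ih (stp S a) (stp_nonempty hD hS a) with h | h
      · left; exact h
      · right
        have := rk_lt hS (mu_stp hD hS hS' a)
        rw [List.length_cons]
        omega

lemma foldl_full {D : ℕ} (hD : 2 ≤ D) (w : List (Fin D)) (hw : 2 ^ D - 2 ≤ w.length)
    (S : Finset (Fin D)) (hS : S.Nonempty) : w.foldl stp S = univ := by
  by_contra hne
  have hne' := foldl_nonempty hD w S hS
  rcases foldl_rk hD w S hS with h | h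
  · exact hne h
  · have h2 := rk_le hD hne' hne
    have h4 : 4 ≤ 2 ^ D := by
      calc 4 = 2 ^ 2 := by norm_num
        _ ≤ 2 ^ D := Nat.pow_le_pow_right (by norm_num) hD
    omega

/-! ### A word of length 2^D - 3 that does not -/

/-- The set of the k smallest elements. -/
def lowS (D k : ℕ) : Finset (Fin D) := univ.filter (fun x => (x : ℕ) < k)

/-- The elements x with m - k ≤ x < m. -/
def topS (D m k : ℕ) : Finset (Fin D) := univ.filter (fun x => m ≤ (x : ℕ) + k ∧ (x : ℕ) < m)

lemma path_layer (D m : ℕ) (hm : m ≤ D) : ∀ k : ℕ, k ≤ m → ∀ W : Finset (Fin D),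
    (∀ x ∈ W, m ≤ (x : ℕ)) →
    ∃ w : List (Fin D), w.length + 1 = m.choose k ∧
      w.foldl stp (lowS D k ∪ W) = topS D m k ∪ W := by
  induction m with
  | zero =>
    intro k hk W _
    have hk0 : k = 0 := by omega
    subst hk0
    refine ⟨[], by simp, ?_⟩
    have : lowS D 0 = topS D 0 0 := by ext x; simp [lowS, topS]
    rw [List.foldl_nil, this]
  | succ m ih =>
    intro k hk W hW
    rcases Nat.eq_zero_or_pos k with hk0 | hkpos
    · subst hk0
      refine ⟨[], by simp, ?_⟩
      rw [List.foldl_nil]
      congr 1
      ext x; simp [lowS, topS]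
    · rcases Nat.eq_or_lt_of_le hk with hkm | hkm
      · subst hkm
        refine ⟨[], by simp, ?_⟩
        rw [List.foldl_nil]
        congr 1
        ext x; simp [lowS, topS]
      · -- 1 ≤ k ≤ m
        have hkm' : k ≤ m := by omega
        obtain ⟨w1, hw1, hf1⟩ := ih (by omega) k hkm' W (fun x hx => by have := hW x hx; omega)
        have hmD : m < D := by omega
        obtain ⟨w2, hw2, hf2⟩ := ih (by omega) (k - 1) (by omega) (insert ⟨m, hmD⟩ W) (by
          intro x hx
          rcases Finset.mem_insert.mp hx with h | h
          · rw [h]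
          · have := hW x h; omega)
        have hm1 : m - 1 < D := by omega
        refine ⟨w1 ++ (⟨m - 1, hm1⟩ :: w2), ?_, ?_⟩
        · rw [List.length_append, List.length_cons]
          obtain ⟨k', rfl⟩ : ∃ k', k = k' + 1 := ⟨k - 1, by omega⟩
          rw [Nat.choose_succ_succ']
          simp only [Nat.add_sub_cancel] at hw2
          omega
        · rw [List.foldl_append, hf1, List.foldl_cons]
          have hstep : stp (topS D m k ∪ W) ⟨m - 1, hm1⟩ = lowS D (k - 1) ∪ insert ⟨m, hmD⟩ W := by
            ext y
            rw [mem_stp]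
            have hnl : ¬ ((m - 1 : ℕ) + 1 = D) := by omega
            simp only [Finset.mem_union, Finset.mem_insert, topS, lowS, Finset.mem_filter,
              Finset.mem_univ, true_and, allowed, if_neg hnl]
            constructor
            · rintro ⟨x, hx, hxy⟩
              have hxm : (x : ℕ) ≠ m := by
                rcases hx with h | h
                · omega
                · have := hW x h; omega
              rcases hxy with h | h | h | h
              · exfalso; omega
              · right; left
                apply Fin.ext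
                show (y : ℕ) = m
                omega
              · rcases hx with h' | h'
                · left; omega
                · exfalso; have := hW x h'; omega
              · rcases hx with h' | h'
                · exfalso; omega
                · right; right
                  have : y = x := Fin.ext h.2
                  rw [this]; exact h'
            · intro hy
              rcases hy with h | h | h
              · refine ⟨⟨m - 2 - y, by omega⟩, ?_, ?_⟩
                · left
                  show m ≤ (m - 2 - (y : ℕ)) + k ∧ (m - 2 - (y : ℕ)) < m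
                  omega
                · right; right; left
                  show (m - 2 - (y : ℕ)) < m - 1 ∧ (m - 2 - (y : ℕ)) + (y : ℕ) + 1 = m - 1
                  omega
              · refine ⟨⟨m - 1, hm1⟩, ?_, ?_⟩
                · left
                  show m ≤ (m - 1) + k ∧ (m - 1) < m
                  omega
                · right; left
                  rw [h]
                  show m = m - 1 + 1
                  omega
              · refine ⟨y, Or.inr h, ?_⟩
                right; right; right
                have := hW y h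
                omega
          rw [hstep, hf2]
          ext y
          simp only [Finset.mem_union, Finset.mem_insert, topS, Finset.mem_filter,
              Finset.mem_univ, true_and]
          constructor
          · rintro (h | h | h)
            · left; omega
            · left; rw [h]
              show m + 1 ≤ m + k ∧ m < m + 1
              omega
            · right; exact h
          · rintro (h | h)
            · by_cases hy : (y : ℕ) = m
              · right; left; exact Fin.ext hy
              · left; omega
            · right; right; exact h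

lemma path_all (D : ℕ) (hD : 2 ≤ D) : ∀ k : ℕ, 1 ≤ k → k ≤ D - 1 →
    ∃ w : List (Fin D), w.length + 1 = ∑ j ∈ Finset.Icc 1 k, D.choose j ∧
      w.foldl stp (lowS D 1) = topS D D k := by
  intro k hk
  induction k, hk using Nat.le_induction with
  | base =>
    intro _
    obtain ⟨w, hw, hf⟩ := path_layer D D (le_refl D) 1 (by omega) ∅ (by simp)
    refine ⟨w, ?_, ?_⟩
    · simpa using hw
    · simpa using hf
  | succ k hk ih =>
    intro hkD
    obtain ⟨w1, hw1, hf1⟩ := ih (by omega)
    obtain ⟨w2, hw2, hf2⟩ := path_layer D D (le_refl D) (k + 1) (by omega) ∅ (by simp)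
    rw [Finset.union_empty, Finset.union_empty] at hf2
    refine ⟨w1 ++ (⟨D - 1, by omega⟩ :: w2), ?_, ?_⟩
    · rw [List.length_append, List.length_cons, Finset.sum_Icc_succ_top (by omega)]
      omega
    · rw [List.foldl_append, hf1, List.foldl_cons]
      have hstep : stp (topS D D k) ⟨D - 1, by omega⟩ = lowS D (k + 1) := by
        ext y
        rw [mem_stp]
        have hl : ((D - 1 : ℕ) + 1 = D) := by omega
        simp only [topS, lowS, Finset.mem_filter, Finset.mem_univ, true_and, allowed, if_pos hl]
        have hy2 := y.2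
        constructor
        · rintro ⟨x, hx, hxy⟩
          omega
        · intro hy
          by_cases hy0 : (y : ℕ) = 0
          · refine ⟨⟨D - 1, by omega⟩, ?_, ?_⟩
            · show D ≤ (D - 1) + k ∧ (D - 1) < D
              omega
            · right; left; exact hy0
          · refine ⟨⟨D - y, by omega⟩, ?_, ?_⟩
            · show D ≤ (D - (y : ℕ)) + k ∧ (D - (y : ℕ)) < D
              omega
            · right; right
              show (D - (y : ℕ)) + (y : ℕ) = D
              omega
      rw [hstep, hf2]

lemma exists_long (D : ℕ) (hD : 2 ≤ D) :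
    ∃ w : List (Fin D), w.length = 2 ^ D - 3 ∧ w.foldl stp ({⟨0, by omega⟩} : Finset (Fin D)) ≠ univ := by
  obtain ⟨w, hw, hf⟩ := path_all D hD (D - 1) (by omega) (le_refl _)
  refine ⟨w, ?_, ?_⟩
  · have h1 : ∑ j ∈ Finset.range (D + 1), D.choose j = 2 ^ D := Nat.sum_range_choose D
    have h2 : ∑ j ∈ Finset.range (D + 1), D.choose j
        = 1 + ∑ j ∈ Finset.Icc 1 (D - 1), D.choose j + 1 := by
      rw [Finset.sum_range_succ, Nat.choose_self]
      congr 1
      obtain ⟨E, rfl⟩ : ∃ E, D = E + 1 := ⟨D - 1, by omega⟩
      rw [Finset.sum_range_succ', Nat.choose_zero_right, Nat.add_sub_cancel, add_comm]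
      congr 1
      rw [Finset.range_eq_Ico, Finset.sum_Ico_add' (fun j => (E + 1).choose j) 0 E 1]
      rfl
    have h4 : 4 ≤ 2 ^ D := by
      calc 4 = 2 ^ 2 := by norm_num
        _ ≤ 2 ^ D := Nat.pow_le_pow_right (by norm_num) hD
    omega
  · have hl : ({⟨0, by omega⟩} : Finset (Fin D)) = lowS D 1 := by
      ext x
      simp only [lowS, Finset.mem_singleton, Finset.mem_filter, Finset.mem_univ, true_and]
      constructor
      · intro h; rw [h]; exact Nat.zero_lt_one
      · intro h; apply Fin.ext; show (x : ℕ) = 0; omega
    rw [hl, hf]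
    intro h
    have h0 : (⟨0, by omega⟩ : Fin D) ∈ topS D D (D - 1) := by rw [h]; exact Finset.mem_univ _
    simp only [topS, Finset.mem_filter, Finset.mem_univ, true_and] at h0
    omega

/-! ### Paths along words -/

lemma mem_foldl_iff {D : ℕ} : ∀ (n : ℕ) (U : Fin n → Fin D) (S : Finset (Fin D)) (r : Fin D),
    r ∈ (List.ofFn U).foldl stp S ↔
      ∃ h : Fin (n + 1) → Fin D, h 0 ∈ S ∧ h (Fin.last n) = r ∧
        ∀ j : Fin n, allowed D (U j) (h j.castSucc) (h j.succ) := by
  intro n
  induction n with
  | zero =>
    intro U S r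
    simp only [List.ofFn_zero, List.foldl_nil]
    constructor
    · intro hr
      exact ⟨fun _ => r, hr, rfl, fun j => j.elim0⟩
    · rintro ⟨h, h0, h1, _⟩
      have : (Fin.last 0) = 0 := rfl
      rw [this] at h1
      rw [← h1]; exact h0
  | succ n ih =>
    intro U S r
    rw [List.ofFn_succ, List.foldl_cons, ih]
    constructor
    · rintro ⟨h, h0, h1, h2⟩
      obtain ⟨x, hx, hxa⟩ := (mem_stp _ _ _).mp h0
      refine ⟨Fin.cons x h, ?_, ?_, ?_⟩
      · simpa using hx
      · rw [← Fin.succ_last, Fin.cons_succ]; exact h1
      · intro j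
        refine Fin.cases ?_ (fun j => ?_) j
        · simpa using hxa
        · have := h2 j
          rw [Fin.cons_succ, ← Fin.succ_castSucc, Fin.cons_succ]
          exact this
    · rintro ⟨h, h0, h1, h2⟩
      refine ⟨fun j => h j.succ, ?_, ?_, ?_⟩
      · refine (mem_stp _ _ _).mpr ⟨h 0, h0, ?_⟩
        have := h2 0
        simpa using this
      · show h (Fin.last n).succ = r
        rw [Fin.succ_last]; exact h1
      · intro j
        have := h2 j.succ
        rw [← Fin.succ_castSucc] at this
        exact this

/-! ### The tensor -/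

/-- The index set of the physical space: one state per tile. -/
abbrev Tile (D : ℕ) := Fin D × Fin D × Fin D × Fin D

/-- The tensor: the physical index names all four virtual indices, and the horizontal move
l to r must be allowed under the letter u; the lower index is free. -/
noncomputable def tens (D : ℕ) : Tensor (Fintype.card (Tile D)) D :=
  fun s l r u w => if s = Fintype.equivFin (Tile D) (l, r, u, w) ∧ allowed D u l r then 1 else 0

lemma prod_tens {D n : ℕ} (s : Fin n → Fin n → Fin (Fintype.card (Tile D)))
    (h : Fin n → Fin (n + 1) → Fin D) (v : Fin (n + 1) → Fin n → Fin D) :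
    (∏ i, ∏ j, tens D (s i j) (h i j.castSucc) (h i j.succ) (v i.castSucc j) (v i.succ j))
      = if (∀ i j, s i j = Fintype.equivFin (Tile D)
            (h i j.castSucc, h i j.succ, v i.castSucc j, v i.succ j) ∧
            allowed D (v i.castSucc j) (h i j.castSucc) (h i j.succ)) then 1 else 0 := by
  by_cases H : (∀ i j, s i j = Fintype.equivFin (Tile D)
            (h i j.castSucc, h i j.succ, v i.castSucc j, v i.succ j) ∧
            allowed D (v i.castSucc j) (h i j.castSucc) (h i j.succ))
  · rw [if_pos H]
    apply Finset.prod_eq_one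
    intro i _
    apply Finset.prod_eq_one
    intro j _
    unfold tens
    rw [if_pos (H i j)]
  · rw [if_neg H]
    push Not at H
    obtain ⟨i, j, hij⟩ := H
    apply Finset.prod_eq_zero (Finset.mem_univ i)
    apply Finset.prod_eq_zero (Finset.mem_univ j)
    unfold tens
    rw [if_neg]
    rintro ⟨h1, h2⟩
    exact hij h1 h2

/-- All words of length n connect all pairs. -/
def Conn (D n : ℕ) : Prop := ∀ (U : Fin n → Fin D) (l r : Fin D),
  ∃ h : Fin (n + 1) → Fin D, h 0 = l ∧ h (Fin.last n) = r ∧
    ∀ j : Fin n, allowed D (U j) (h j.castSucc) (h j.succ)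

lemma inj_of_conn {D n : ℕ} (hn : 1 ≤ n) (hc : Conn D n) :
    Function.Injective (regionMap (tens D) n) := by
  rw [← LinearMap.ker_eq_bot, LinearMap.ker_eq_bot']
  intro b hb
  funext β
  obtain ⟨L, R, U, W⟩ := β
  choose h h0 h1 h2 using fun i : Fin n => hc U (L i) (R i)
  let v : Fin (n + 1) → Fin n → Fin D := fun i j => if i = Fin.last n then W j else U j
  have hv0 : ∀ i : Fin n, ∀ j, v i.castSucc j = U j := by
    intro i j
    simp only [v]
    rw [if_neg (Fin.castSucc_lt_last i).ne]
  have hvl : ∀ j, v (Fin.last n) j = W j := by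
    intro j; simp [v]
  let s : Fin n → Fin n → Fin (Fintype.card (Tile D)) := fun i j =>
    Fintype.equivFin (Tile D) (h i j.castSucc, h i j.succ, v i.castSucc j, v i.succ j)
  have hs := congrFun hb s
  have huniq : ∀ (h' : Fin n → Fin (n + 1) → Fin D) (v' : Fin (n + 1) → Fin n → Fin D),
      (∀ i j, s i j = Fintype.equivFin (Tile D)
            (h' i j.castSucc, h' i j.succ, v' i.castSucc j, v' i.succ j)) → h' = h ∧ v' = v := by
    intro h' v' H
    have H' : ∀ i j, h i j.castSucc = h' i j.castSucc ∧ h i j.succ = h' i j.succ ∧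
        v i.castSucc j = v' i.castSucc j ∧ v i.succ j = v' i.succ j := by
      intro i j
      have := (Fintype.equivFin (Tile D)).injective (H i j)
      simpa [Prod.ext_iff] using this
    constructor
    · funext i j
      refine Fin.lastCases ?_ (fun j => ?_) j
      · obtain ⟨m, rfl⟩ : ∃ m, n = m + 1 := ⟨n - 1, by omega⟩
        have := (H' i (Fin.last m)).2.1
        rw [Fin.succ_last] at this
        exact this.symm
      · exact (H' i j).1.symm
    · funext i j
      revert i
      intro i
      refine Fin.lastCases ?_ (fun i => ?_) i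
      · obtain ⟨m, rfl⟩ : ∃ m, n = m + 1 := ⟨n - 1, by omega⟩
        have := (H' (Fin.last m) j).2.2.2
        rw [Fin.succ_last] at this
        exact this.symm
      · exact (H' i j).2.2.1.symm
  have hval : regionMap (tens D) n b s = b (L, R, U, W) := by
    show (∑ h' : Fin n → Fin (n + 1) → Fin D, ∑ v' : Fin (n + 1) → Fin n → Fin D,
      b (fun i => h' i 0, fun i => h' i (Fin.last n), fun j => v' 0 j, fun j => v' (Fin.last n) j) *
      ∏ i, ∏ j, tens D (s i j) (h' i j.castSucc) (h' i j.succ) (v' i.castSucc j) (v' i.succ j)) = _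
    rw [Finset.sum_eq_single h, Finset.sum_eq_single v]
    · rw [prod_tens, if_pos]
      · rw [mul_one]
        congr 1
        refine Prod.ext ?_ (Prod.ext ?_ (Prod.ext ?_ ?_))
        · funext i; exact h0 i
        · funext i; exact h1 i
        · funext j
          obtain ⟨m, rfl⟩ : ∃ m, n = m + 1 := ⟨n - 1, by omega⟩
          exact hv0 0 j
        · funext j; exact hvl j
      · intro i j
        refine ⟨rfl, ?_⟩
        rw [hv0]
        exact h2 i j
    · intro v' _ hv'
      rw [prod_tens, if_neg, mul_zero]
      intro H
      exact hv' (huniq h v' (fun i j => (H i j).1)).2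
    · intro H; exact absurd (Finset.mem_univ _) H
    · intro h' _ hh'
      apply Finset.sum_eq_zero
      intro v' _
      rw [prod_tens, if_neg, mul_zero]
      intro H
      exact hh' (huniq h' v' (fun i j => (H i j).1)).1
    · intro H; exact absurd (Finset.mem_univ _) H
  rw [← hval]
  exact hs

lemma conn_of_inj {D n : ℕ} (hn : 1 ≤ n) (hi : Function.Injective (regionMap (tens D) n)) :
    Conn D n := by
  intro U l r
  by_contra hcon
  let β : Bdry n D := (fun _ => l, fun _ => r, U, U)
  have hz : regionMap (tens D) n (Pi.single β 1) = 0 := by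
    funext s
    show (∑ h' : Fin n → Fin (n + 1) → Fin D, ∑ v' : Fin (n + 1) → Fin n → Fin D,
      (Pi.single β (1 : ℂ) : Bdry n D → ℂ)
        (fun i => h' i 0, fun i => h' i (Fin.last n), fun j => v' 0 j, fun j => v' (Fin.last n) j) *
      ∏ i, ∏ j, tens D (s i j) (h' i j.castSucc) (h' i j.succ) (v' i.castSucc j) (v' i.succ j)) = 0
    apply Finset.sum_eq_zero
    intro h' _
    apply Finset.sum_eq_zero
    intro v' _
    by_cases hb : ((fun i => h' i 0, fun i => h' i (Fin.last n), fun j => v' 0 j,
        fun j => v' (Fin.last n) j) : Bdry n D) = β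
    · rw [prod_tens, if_neg, mul_zero]
      intro H
      obtain ⟨m, rfl⟩ : ∃ m, n = m + 1 := ⟨n - 1, by omega⟩
      apply hcon
      have e1 := congrFun (congrArg Prod.fst hb) 0
      have e2 := congrFun (congrArg (fun x => x.2.1) hb) 0
      have e3 := fun j => congrFun (congrArg (fun x => x.2.2.1) hb) j
      refine ⟨h' 0, e1, e2, ?_⟩
      intro j
      have := (H 0 j).2
      have e4 : v' (Fin.castSucc 0) j = U j := e3 j
      rw [e4] at this
      exact this
    · rw [Pi.single_eq_of_ne hb, zero_mul]
  have h0 : regionMap (tens D) n (Pi.single β 1) = regionMap (tens D) n 0 := by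
    rw [hz, map_zero]
  have := congrFun (hi h0) β
  simp at this

lemma conn_top {D : ℕ} (hD : 2 ≤ D) : Conn D (2 ^ D - 2) := by
  intro U l r
  have h := foldl_full hD (List.ofFn U) (by rw [List.length_ofFn]) {l} (Finset.singleton_nonempty l)
  have hr : r ∈ (List.ofFn U).foldl stp {l} := by rw [h]; exact Finset.mem_univ _
  obtain ⟨p, p0, p1, p2⟩ := (mem_foldl_iff _ U {l} r).mp hr
  exact ⟨p, Finset.mem_singleton.mp p0, p1, p2⟩

lemma not_conn {D : ℕ} (hD : 2 ≤ D) (n : ℕ) (hn : n ≤ 2 ^ D - 3) : ¬ Conn D n := by
  intro hc
  obtain ⟨w, hw, hf⟩ := exists_long D hD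
  apply hf
  have key : ∀ w' : List (Fin D), w'.length = n →
      w'.foldl stp ({⟨0, by omega⟩} : Finset (Fin D)) = univ := by
    intro w' hw'
    subst hw'
    ext r
    simp only [Finset.mem_univ, iff_true]
    have h1 := hc w'.get ⟨0, by omega⟩ r
    obtain ⟨p, p0, p1, p2⟩ := h1
    have h2 := (mem_foldl_iff _ w'.get {⟨0, by omega⟩} r).mpr
      ⟨p, Finset.mem_singleton.mpr p0, p1, p2⟩
    rwa [List.ofFn_get] at h2
  have h3 := key (w.take n) (by rw [List.length_take]; omega)
  rw [← List.take_append_drop n w, List.foldl_append, h3]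
  exact foldl_univ hD _

/-- For every bond dimension D at least 2 there is a normal PEPS tensor whose injectivity index
is exactly 2^D - 2. -/
theorem result : ∀ D : ℕ, 2 ≤ D →
    ∃ (d : ℕ) (A : Tensor d D), 1 ≤ d ∧ IsNormal A ∧ injIndex A = 2 ^ D - 2 := by
  intro D hD
  have h4 : 4 ≤ 2 ^ D := by
    calc 4 = 2 ^ 2 := by norm_num
      _ ≤ 2 ^ D := Nat.pow_le_pow_right (by norm_num) hD
  have hmem : 2 ^ D - 2 ∈ {n : ℕ | 1 ≤ n ∧ Function.Injective (regionMap (tens D) n)} :=
    ⟨by omega, inj_of_conn (by omega) (conn_top hD)⟩
  refine ⟨Fintype.card (Tile D), tens D, ?_, ⟨_, hmem⟩, ?_⟩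
  · have : 0 < Fintype.card (Tile D) := by
      have : Nonempty (Fin D) := ⟨⟨0, by omega⟩⟩
      exact Fintype.card_pos
    exact this
  · apply le_antisymm
    · exact Nat.sInf_le hmem
    · apply le_csInf ⟨_, hmem⟩
      rintro n ⟨hn1, hn2⟩
      by_contra hlt
      push Not at hlt
      exact not_conn hD n (by omega) (conn_of_inj hn1 hn2)

end Pool.Agent.Results.MP_a2a8ea_mp.ExpLowerBound
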