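import Mathlib
import Pool.Agent.LibPeps.Tensor
import Pool.Agent.LibPeps.Main

set_option autoImplicit false

/-!
The optimal bound F(D) on the injectivity index of normal PEPS of bond dimension D grows faster than
every computable function of D.
-/

namespace Pool.Agent.Results.MP_a2a8ea_mp.NotComputable

open Pool.Agent.LibPeps

/-- The supremum of the injectivity indices of all normal PEPS tensors of bond dimension D (of any
physical dimension d at least 1). -/
noncomputable def F (D : ℕ) : ℕ∞ :=
  ⨆ (d : ℕ) (_ : 1 ≤ d) (A : Tensor d D) (_ : IsNormal A), (injIndex A : ℕ∞)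

/-- F eventually dominates every computable function; in particular F is not computable and has no
computable upper bound. -/
theorem result (g : ℕ → ℕ) (hg : Computable g) :
    ∃ D₀ : ℕ, ∀ D : ℕ, D₀ ≤ D → (g D : ℕ∞) < F D := by
  obtain ⟨D₀, h⟩ := main g hg
  refine ⟨D₀, fun D hD => ?_⟩
  obtain ⟨d, A, h1, h2, h3⟩ := h D hD
  refine lt_of_lt_of_le (Nat.cast_lt.2 h3) ?_
  unfold F
  exact le_iSup₂_of_le d h1 (le_iSup₂_of_le A h2 (le_refl _))

end Pool.Agent.Results.MP_a2a8ea_mp.NotComputable
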